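import Pool.Agent.H73.ST.Stm3

/-!
# Part TREEP of the exact sampler (MP_d8fb5e_lc): the functions of the complex are polynomial
-/

set_option autoImplicit false

namespace Pool.Agent.H44.ST

open Pool.Agent Pool.Agent.NPC Pool.Agent.H73.ST

variable {α : Type} [TEnc α]

theorem foldr_max_le (l : List ℕ) : l.foldr max 0 = 0 ∨ l.foldr max 0 ∈ l := by
  induction l with
  | nil => simp
  | cons a l ih =>
    rw [List.foldr_cons]
    rcases le_total a (l.foldr max 0) with h | h
    · rw [max_eq_right h]
      rcases ih with h1 | h1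
      · exact Or.inl h1
      · exact Or.inr (List.mem_cons_of_mem _ h1)
    · rw [max_eq_left h]
      exact Or.inr List.mem_cons_self

theorem foldr_max_drop (l : List ℕ) (k : ℕ) : sz ((l.drop k).foldr max 0) ≤ sz l := by
  rcases foldr_max_le (l.drop k) with h | h
  · rw [h]
    have h1 : sz (0 : ℕ) = 1 := rfl
    rw [h1]
    exact sz_pos l
  · exact (sz_le_of_mem (List.mem_of_mem_drop h)).le

theorem poly_foldmax {l : α → List ℕ} (hl : Poly l) : Poly (fun a => (l a).foldr max 0) := by
  obtain ⟨r, hr⟩ := hl.sz_le
  refine Poly.foldr (s := fun _ => 0) (F := fun _ x s => max x s) hl (NPC.Poly.const 0)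
    (by fun_prop) r ?_
  intro a k _
  exact (foldr_max_drop (l a) k).trans (hr a)

theorem poly_maxLen {F : α → List (List ℕ)} (hF : Poly F) : Poly (fun a => maxLen (F a)) := by
  unfold maxLen
  exact poly_foldmax (by fun_prop)

attribute [local fun_prop] poly_maxLen

theorem poly_tp {F : α → List (List ℕ)} (hF : Poly F) : Poly (fun a => tp (F a)) := by
  unfold tp
  fun_prop

attribute [local fun_prop] poly_tp

theorem poly_sel {β : Type} [TEnc β] {T : α → List β} {y : α → List Bool} (hT : Poly T)
    (hy : Poly y) : Poly (fun a => sel (T a) (y a)) := by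
  unfold sel
  fun_prop

attribute [local fun_prop] poly_sel

theorem poly_code {σ τ : α → List ℕ} (hσ : Poly σ) (hτ : Poly τ) :
    Poly (fun a => code (σ a) (τ a)) := by
  unfold code
  fun_prop

attribute [local fun_prop] poly_code

theorem poly_row {F : α → List (List ℕ)} {σ : α → List ℕ} (hF : Poly F) (hσ : Poly σ) :
    Poly (fun a => row (F a) (σ a)) := by
  unfold row
  fun_prop

attribute [local fun_prop] poly_row

theorem poly_indF (t : List (List ℕ) → Bool) (ht : NPC.Poly t) : NPC.Poly (indF t) := by
  have h : Poly (fun q : List (List ℕ) × List Bool => (sel (tp q.1) q.2).map (row q.1)) := by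
    fun_prop
  exact ht.comp h

theorem length_face_le {F : List (List ℕ)} (hF : IsComplex F) {σ : List ℕ} (hσ : σ ∈ F) :
    σ.length ≤ F.length := by
  have h1 : σ.Nodup := (hF.sorted σ hσ).2.imp (fun h => h.ne)
  have h2 : σ ⊆ List.range F.length := fun v hv => List.mem_range.2 (hF.small σ hσ v hv)
  have h3 := (h1.subperm h2).length_le
  simpa using h3

theorem sz_complex_le {F : List (List ℕ)} (hF : IsComplex F) :
    sz F ≤ F.length * (F.length * (4 * F.length + 2) + 2) + 1 := by
  have key : ∀ σ ∈ F, sz σ ≤ F.length * (4 * F.length + 2) + 1 := by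
    intro σ hσ
    have h1 := sz_le_length_mul σ (4 * F.length + 1) (by
      intro v hv
      have h1 := sz_nat_le v
      have h2 := Poly.size_le_self v
      have h3 := hF.small σ hσ v hv
      omega)
    have h2 := length_face_le hF hσ
    have h3 : σ.length * (4 * F.length + 2) ≤ F.length * (4 * F.length + 2) :=
      Nat.mul_le_mul_right _ h2
    have h4 : 4 * F.length + 1 + 1 = 4 * F.length + 2 := rfl
    rw [h4] at h1
    omega
  have h1 := sz_le_length_mul F (F.length * (4 * F.length + 2) + 1) key
  exact h1

theorem t_TREEP : S_TREEP := by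
  refine ⟨poly_indF, UPoly.length (poly_tp Poly.id), ?_, ?_⟩
  · fun_prop
  · refine ⟨Polynomial.X * (Polynomial.X * (Polynomial.C 4 * Polynomial.X + Polynomial.C 2) +
      Polynomial.C 2) + Polynomial.C 1, fun F hF => ?_⟩
    have h := sz_complex_le hF
    simp only [Polynomial.eval_add, Polynomial.eval_mul, Polynomial.eval_X, Polynomial.eval_C]
    exact h

end Pool.Agent.H44.ST
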